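import Pool.Agent.N666.PS.PowFam
import Pool.Agent.TH823.PS.Fin2

/-!
# Products of consecutive values of `λ` and one more value at all the distances near `f(m)`

Let `f (t) = ∑ a_x t ^ x` be a finite sum of real powers of `t` (with arbitrary real exponents) whose largest exponent
`c > 1` is not an integer and has a positive coefficient, for instance `f (t) = t ^ c` (the values of Piatetski-Shapiro).
At most scales `N`, for all but `X N ^ (-δ)` of the `m ≤ X`, where `X ^ c` is about `N`, the sums of
`λ(n) λ(n + 1) ⋯ λ(n + k - 1) λ(n + b)` over `n ≤ x` are at most `ε N` for all `x ≤ N`, all `k ≤ K` and ALL the natural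
numbers `b` at a distance of at most `N ^ δ` from `f (m)`.

From the starting files: the power saving for families of shifts of small energy at most scales
(`Pool.Agent.TH823.PS.most_good`). From Mathlib: `ArithmeticFunction.cardFactors n`: the number of the prime factors
of `n` with multiplicity.
-/

set_option autoImplicit false

namespace Pool.Agent.Results.MP_78b682_nt.PiatetskiShapiroShifts

open Finset

/-- The Liouville function on the natural numbers, with real values. -/
noncomputable def lio (n : ℕ) : ℝ := (-1) ^ ArithmeticFunction.cardFactors n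

/-- The Liouville function on the integers, `0` at the integers `m ≤ 0`, with complex values. -/
noncomputable def lam (m : ℤ) : ℂ := if 1 ≤ m then (-1) ^ ArithmeticFunction.cardFactors m.toNat else 0

/-- The generalised polynomial with the exponents `x ∈ F` and the coefficients `a x`. -/
noncomputable def f (F : Finset ℝ) (a : ℝ → ℝ) (t : ℝ) : ℝ := ∑ x ∈ F, a x * t ^ x

open Classical in
/-- The number of the `m` in `{1, ..., X}` with the property `E`. -/
noncomputable def num (X : ℕ) (E : ℕ → Prop) : ℝ := (((Icc 1 X).filter E).card : ℝ)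

open Classical in
/-- The property `P` holds at most scales: the set of the positive integers `N` with the property `P` has upper
logarithmic density at least `1 - ε`. Precisely, for arbitrarily large `R` the sum of `1 / N` over the `N ≤ R`
without the property is at most `ε log R`. -/
def MostScales (ε : ℝ) (P : ℕ → Prop) : Prop :=
  ∀ R₀ : ℕ, ∃ R : ℕ, R₀ ≤ R ∧ ∑ N ∈ (Icc 1 R).filter (fun N => ¬ P N), (1 : ℝ) / N ≤ ε * Real.log R

/-- The weights `g l` for the linear form `d l * n + b`: `d l * n ≤ B N` and the sum of the squares is at most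
`B N`. For example all functions bounded by `1`. -/
def Weights (B L N : ℕ) (d : Fin L → ℕ) (g : Fin L → ℕ → ℂ) : Prop :=
  (∀ l, 1 ≤ d l) ∧ ∀ l, ∑ n ∈ Icc 1 (B * N / d l), ‖g l n‖ ^ 2 ≤ B * N

/-- The shift `b` is good: all the partial sums up to `B N / d l` of `g l n * λ (d l * n + b)` are at most
`ε N`, for all `l < L`. -/
def GoodShift (B L N : ℕ) (ε : ℝ) (d : Fin L → ℕ) (g : Fin L → ℕ → ℂ) (b : ℤ) : Prop :=
  ∀ l, ∀ x : ℕ, d l * x ≤ B * N → ‖∑ n ∈ Icc 1 x, g l n * lam (d l * n + b)‖ ≤ ε * N

/-- At the scale `N`, for all `X` with `N ^ (1 - δ) ≤ X ^ c ≤ B N`, all the translations by `t` in `[-B N, B N]` and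
all the weights, for all but `X N ^ (-δ)` of the `m ≤ X`: ALL the integers `b` with `|b - t - f m| ≤ N ^ δ` are good. -/
def NearShifts (F : Finset ℝ) (a : ℝ → ℝ) (c : ℝ) (B L : ℕ) (ε δ : ℝ) (N : ℕ) : Prop :=
  ∀ X : ℕ, (X : ℝ) ^ c ≤ B * N → (N : ℝ) ^ (1 - δ) ≤ (X : ℝ) ^ c → ∀ t : ℤ, |t| ≤ B * N →
    ∀ (d : Fin L → ℕ) (g : Fin L → ℕ → ℂ), Weights B L N d g →
      num X (fun m => ¬ ∀ b : ℤ, |(b : ℝ) - t - f F a m| ≤ (N : ℝ) ^ δ → GoodShift B L N ε d g b) ≤
        X * (N : ℝ) ^ (-δ)

/-- At the scale `N`, for all `X` with `N ^ (1 - δ) ≤ X ^ c ≤ N` and for all but `X N ^ (-δ)` of the `m ≤ X`: for ALL the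
natural numbers `b` with `|b - f m| ≤ N ^ δ`, all `k ≤ K` and all `x ≤ N`, the sum of
`λ(n) λ(n + 1) ⋯ λ(n + k - 1) λ(n + b)` over the `n ≤ x` is at most `ε N`. -/
def Products (F : Finset ℝ) (a : ℝ → ℝ) (c : ℝ) (K : ℕ) (ε δ : ℝ) (N : ℕ) : Prop :=
  ∀ X : ℕ, (X : ℝ) ^ c ≤ N → (N : ℝ) ^ (1 - δ) ≤ (X : ℝ) ^ c →
    num X (fun m => ¬ ∀ b : ℕ, |(b : ℝ) - f F a m| ≤ (N : ℝ) ^ δ → ∀ k ≤ K, ∀ x ≤ N,
      |∑ n ∈ Icc 1 x, (∏ i ∈ range k, lio (n + i)) * lio (n + b)| ≤ ε * N) ≤ X * (N : ℝ) ^ (-δ)

open Classical in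
lemma num_le (X : ℕ) (E : ℕ → Prop) (V : ℝ) (h : ∀ S : Finset ℕ, S ⊆ Icc 1 X → (∀ m ∈ S, E m) → (S.card : ℝ) ≤ V) :
    num X E ≤ V := by
  unfold num
  exact h _ (filter_subset _ _) (fun m hm => (mem_filter.mp hm).2)

lemma num_mono {X : ℕ} {E G : ℕ → Prop} (h : ∀ m ∈ Icc 1 X, E m → G m) : num X E ≤ num X G := by
  classical
  unfold num
  apply Nat.cast_le.2
  apply card_le_card
  intro m hm
  rw [mem_filter] at hm ⊢
  exact ⟨hm.1, h m hm.1 hm.2⟩

lemma shifts_of {F : Finset ℝ} {a : ℝ → ℝ} {c : ℝ} (h : Pool.Agent.N666.PS.GH F a c) (B L : ℕ) {ε : ℝ} (hε : 0 < ε) :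
    ∃ δ : ℝ, 0 < δ ∧ MostScales ε (NearShifts F a c B L ε δ) := by
  classical
  obtain ⟨r, hr1, h1⟩ := Pool.Agent.N666.PS.near_pow h
  obtain ⟨B', hB, h2⟩ := h1 B
  obtain ⟨δ₀, hδ₀, h3⟩ := Pool.Agent.TH823.PS.most_good Pool.Agent.TH823.PS.nice_liR B' L r hr1
    (ε := ε / 2) (by positivity)
  obtain ⟨δ', hδ', _, N₁, h4⟩ := h2 δ₀ hδ₀
  refine ⟨δ', hδ', fun R₀ => ?_⟩
  obtain ⟨R, hR, h5⟩ := Pool.Agent.TH823.PS.most_mono hε h3 (N₁ := N₁ + 1) (P' := NearShifts F a c B L ε δ') (by
    intro N hN hG X hX1 hX2 t ht d g hg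
    apply num_le
    intro S₀ hS₀ hE₀
    refine h4 N (by omega) (fun b => ¬ GoodShift B L N ε d g b) ?_ X hX1 hX2 t ht S₀ hS₀ ?_
    · intro x s hs hen S hS hbad
      have hBN : B * N ≤ B' * N := Nat.mul_le_mul_right N hB
      obtain ⟨g', hg'⟩ : ∃ g' : Fin L → ℕ → ℂ, g' = fun l n => if n ≤ B * N / d l then g l n else 0 := ⟨_, rfl⟩
      have h6 := hG x s hs hen d g' hg.1 (by
        intro l
        have e1 : ∑ n ∈ Icc 1 (B' * N / d l), ‖g' l n‖ ^ 2 = ∑ n ∈ Icc 1 (B * N / d l), ‖g l n‖ ^ 2 := by
          have hsub : Icc 1 (B * N / d l) ⊆ Icc 1 (B' * N / d l) :=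
            Icc_subset_Icc le_rfl (Nat.div_le_div_right hBN)
          rw [← sum_subset hsub]
          · apply sum_congr rfl
            intro n hn
            rw [hg']
            simp only
            rw [if_pos (mem_Icc.mp hn).2]
          · intro n hn hn2
            rw [hg']
            simp only
            rw [if_neg (fun hcon => hn2 (mem_Icc.mpr ⟨(mem_Icc.mp hn).1, hcon⟩))]
            simp
        rw [e1]
        refine (hg.2 l).trans ?_
        exact_mod_cast hBN)
      refine le_trans ?_ h6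
      apply Nat.cast_le.2
      apply card_le_card
      intro m hm
      rw [mem_filter]
      refine ⟨hS hm, fun hcon => hbad m hm fun l x hx => ?_⟩
      have h7 := hcon l x (hx.trans hBN)
      have e2 : ∑ n ∈ Icc 1 x, g l n * lam (d l * n + s m) =
          ∑ n ∈ Icc 1 x, g' l n * Pool.Agent.H373R2.T7.exI Pool.Agent.H373R2.T7.liR (d l * n + s m) := by
        apply sum_congr rfl
        intro n hn
        rw [mem_Icc] at hn
        have e3 : n ≤ B * N / d l := by
          rw [Nat.le_div_iff_mul_le (hg.1 l)]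
          calc n * d l ≤ x * d l := Nat.mul_le_mul_right _ hn.2
            _ = d l * x := mul_comm _ _
            _ ≤ B * N := hx
        rw [hg']
        simp only
        rw [if_pos e3]
        rfl
      rw [e2]
      refine h7.trans ?_
      have : (0 : ℝ) ≤ N := Nat.cast_nonneg _
      nlinarith
    · intro m hm
      have hm2 := hE₀ m hm
      push Not at hm2
      obtain ⟨b, g1, g2⟩ := hm2
      refine ⟨b, ?_, g2⟩
      rw [Pool.Agent.N666.PS.gp_zero]
      exact g1) R₀
  exact ⟨R, hR, h5⟩

lemma products_of {F : Finset ℝ} {a : ℝ → ℝ} {c : ℝ} {K N : ℕ} {ε δ : ℝ}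
    (h : NearShifts F a c 1 (K + 1) ε δ N) : Products F a c K ε δ N := by
  classical
  intro X hX1 hX2
  have h1 := h X (by simpa using hX1) hX2 0 (by simp) (fun _ => 1)
    (fun l n => ∏ i ∈ range (l : ℕ), ((lio (n + i) : ℝ) : ℂ)) (by
      refine ⟨fun _ => le_rfl, fun l => ?_⟩
      have e1 : ∀ n : ℕ, ‖∏ i ∈ range (l : ℕ), ((lio (n + i) : ℝ) : ℂ)‖ ^ 2 = 1 := by
        intro n
        rw [norm_prod]
        have : ∀ i ∈ range (l : ℕ), ‖((lio (n + i) : ℝ) : ℂ)‖ = 1 := by
          intro i _
          rw [Complex.norm_real]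
          unfold lio
          simp
        rw [prod_congr rfl this]
        simp
      rw [sum_congr rfl (fun n _ => e1 n), sum_const, Nat.card_Icc, nsmul_eq_mul, mul_one]
      simp)
  refine (num_mono fun m _ hm => ?_).trans h1
  push Not at hm ⊢
  obtain ⟨b, hb, k, hk, x, hx, hbig⟩ := hm
  refine ⟨(b : ℤ), by simpa using hb, fun hcon => ?_⟩
  have h2 := hcon ⟨k, by omega⟩ x (by simpa using hx)
  have e1 : ∑ n ∈ Icc 1 x, (∏ i ∈ range k, ((lio (n + i) : ℝ) : ℂ)) * lam (((1 : ℕ) : ℤ) * n + (b : ℤ)) =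
      ((∑ n ∈ Icc 1 x, (∏ i ∈ range k, lio (n + i)) * lio (n + b) : ℝ) : ℂ) := by
    push_cast
    apply sum_congr rfl
    intro n hn
    rw [mem_Icc] at hn
    congr 1
    unfold lam lio
    rw [if_pos (by push_cast; omega)]
    have : (1 * (n : ℤ) + (b : ℤ)).toNat = n + b := by omega
    rw [this]
    push_cast
    rfl
  simp only at h2
  rw [e1, Complex.norm_real, Real.norm_eq_abs] at h2
  linarith

/-- Let `f (t) = ∑ x ∈ F, a x * t ^ x`, where `F` is a finite set of real exponents whose largest element `c` is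
larger than `1` and not an integer, and where `a c > 0`. Let `ε > 0`. At most scales `N`, that is on a set of `N` of
upper logarithmic density at least `1 - ε`:
1. (for every `K`, with `δ > 0` depending on `f`, `ε`, `K`) for `N ^ (1 - δ) ≤ X ^ c ≤ N` and for all but `X N ^ (-δ)` of
the `m ≤ X`: for ALL the natural numbers `b` with `|b - f m| ≤ N ^ δ`, all `k ≤ K` and all `x ≤ N`, the sum of
`λ(n) λ(n + 1) ⋯ λ(n + k - 1) λ(n + b)` over the `n ≤ x` has absolute value at most `ε N`;
2. (for all `B`, `L`, with `δ > 0` depending on `f`, `ε`, `B`, `L`) the same holds for the sums of `g l n * λ (d l * n + b)`,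
`l < L`, with arbitrary weights `g l`, for ALL the integers `b` with `|b - t - f m| ≤ N ^ δ`, uniformly in the
translation `|t| ≤ B N`. -/
theorem result (F : Finset ℝ) (a : ℝ → ℝ) (c : ℝ) (hcF : c ∈ F) (hmax : ∀ x ∈ F, x ≤ c) (hac : 0 < a c)
    (hc : 1 < c) (hcn : ∀ k : ℕ, c ≠ k) (ε : ℝ) (hε : 0 < ε) :
    (∀ K : ℕ, ∃ δ : ℝ, 0 < δ ∧ MostScales ε (Products F a c K ε δ)) ∧
    (∀ B L : ℕ, ∃ δ : ℝ, 0 < δ ∧ MostScales ε (NearShifts F a c B L ε δ)) := by
  classical
  have h : Pool.Agent.N666.PS.GH F a c := ⟨hcF, hmax, hac, hc, hcn⟩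
  refine ⟨fun K => ?_, fun B L => shifts_of h B L hε⟩
  obtain ⟨δ, hδ, h1⟩ := shifts_of h 1 (K + 1) hε
  refine ⟨δ, hδ, fun R₀ => ?_⟩
  obtain ⟨R, hR, h2⟩ := h1 R₀
  refine ⟨R, hR, le_trans ?_ h2⟩
  apply sum_le_sum_of_subset_of_nonneg
  · intro N hN
    rw [mem_filter] at hN ⊢
    exact ⟨hN.1, fun h3 => hN.2 (products_of h3)⟩
  · intro _ _ _
    positivity

end Pool.Agent.Results.MP_78b682_nt.PiatetskiShapiroShifts

/-
Claim file of this former hand-in (MP_a14ce1_nt.PiatetskiShapiroShifts, helper666), moved here by helper675 with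
the consent of the lead (ask 18729) in exchange for MP_a14ce1_nt.FixedAndShortDistances:

Proves: Let f(t) be a finite sum of a_x t^x over real exponents x whose largest exponent c > 1 is not an integer and has a positive coefficient (e.g. t^c), eps > 0. At most scales N (a set of N of upper logarithmic density >= 1-eps): (1) for every K, with delta > 0 depending on f, eps, K: if N^(1-delta) <= X^c <= N, then for all but X N^(-delta) of the m <= X, ALL naturals b with |b-f(m)| <= N^delta, all k <= K and all x <= N satisfy |sum_{n<=x} lambda(n)lambda(n+1)...lambda(n+k-1)lambda(n+b)| <= eps N; (2) the same for sums of g_l(n) lambda(d_l n+b), l < L, d_l n <= BN, with arbitrary weights g_l bounded in mean square, ALL integers b with |b-t-f(m)| <= N^delta, any |t| <= BN.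
Definitions: lio, lam: Liouville function (0 at m<=0); f: generalised polynomial; num: number of m<=X; MostScales eps P: for arbitrarily large R the N<=R without P have sum of 1/N at most eps log R; Weights: d_l>=1, sum of |g_l|^2 over n<=BN/d_l at most BN; GoodShift b: the partial sums in (2), d_l x<=BN, are <= eps N; NearShifts, Products: (2), (1).
Relation: Partial result for Q1: products of k+1 values, k consecutive, the last one at ALL distances in short intervals around almost all points of a sequence with N^(1/c) elements below N. The starting files have polynomials and low-energy families of shifts (MP_715a43, engine TH823 most_good used as a black box), not t^c and no neighbourhoods. New: van der Corput bounds uniform in the frequency give additive energy of high order near its minimum for all translates and perturbations.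
-/
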